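import Pool.Agent.Y489.PH.Final

/-!
# The Hilbert-Smith conjecture for pointwise Lipschitz homeomorphisms

Let `n ≥ 1` and let `X` be a metric space in which the points with a neighbourhood bi-Lipschitz
equivalent to an open subset of `ℝⁿ` form a dense connected set (for example a connected Lipschitz
manifold, or an Alexandrov space of dimension `n`). Every locally compact group which acts faithfully
and continuously on `X`, such that every element near the identity is Lipschitz at all regular
points except countably many, is a Lie group. The Lipschitz constants depend on the point and on the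
element in an arbitrary way. For example all elements may be homeomorphisms which are
differentiable at every point.

Proof (files in `Pool/Agent/Y489/PH/` and the files imported there). Baire's theorem on the closed
set of the points near which no open subgroup acts trivially and on the group produces such a point
near which the maps of an open subgroup are uniformly Lipschitz at all points outside a countable
set, or near which all other points have a neighbourhood on which an open subgroup acts
trivially. The average `F` of a pro-`p` subgroup is then Lipschitz at all points off a countable set, so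
that almost every point has only nondegenerate preimages (Stepanov), finitely many, permuted by
the group with preservation of the sign, and with signed number one. Orbits of size divisible by `p`
are impossible, so all points are fixed. The global part follows project HS of helper485.
-/

namespace Pool.Agent.Results.MP_afaf30_gt.PointwiseLipschitz

open Set Metric Filter Topology

/-- A bi-Lipschitz chart with values in Euclidean `n`-space. -/
def BiLip {X : Type} [MetricSpace X] (n : ℕ) (U : Set X) (ψ : X → EuclideanSpace ℝ (Fin n))
    (L : ℝ) : Prop :=
  IsOpen U ∧ IsOpen (ψ '' U) ∧
    ∀ a ∈ U, ∀ b ∈ U, dist (ψ a) (ψ b) ≤ L * dist a b ∧ dist a b ≤ L * dist (ψ a) (ψ b)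

/-- The points with a neighbourhood which is bi-Lipschitz equivalent to an open subset of Euclidean
`n`-space. -/
def Reg (n : ℕ) (X : Type) [MetricSpace X] : Set X :=
  {x | ∃ (U : Set X) (ψ : X → EuclideanSpace ℝ (Fin n)) (L : ℝ), x ∈ U ∧ BiLip n U ψ L}

/-- `f` is Lipschitz at the point `x`. -/
def LipAt {X : Type} [MetricSpace X] (f : X → X) (x : X) : Prop :=
  ∃ N δ : ℝ, 0 < δ ∧ ∀ y, dist y x < δ → dist (f y) (f x) ≤ N * dist y x

/-- The Hilbert-Smith conjecture for pointwise Lipschitz homeomorphisms. -/
theorem result :
    ∀ (n : ℕ), 1 ≤ n → ∀ (X : Type) [MetricSpace X],
      Dense (Reg n X) → IsPreconnected (Reg n X) →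
      ∀ (G : Type) [Group G] [TopologicalSpace G] [IsTopologicalGroup G] [LocallyCompactSpace G]
        [MulAction G X] [ContinuousSMul G X] [FaithfulSMul G X],
        (∀ᶠ g in 𝓝 (1 : G), {x : X | x ∈ Reg n X ∧ ¬ LipAt (fun x : X => g • x) x}.Countable) →
        ∃ (m : ℕ) (_ : ChartedSpace (EuclideanSpace ℝ (Fin m)) G),
          LieGroup (modelWithCornersSelf ℝ (EuclideanSpace ℝ (Fin m)))
            ((⊤ : ℕ∞) : WithTop ℕ∞) G := by
  intro n hn X _ hd hc G _ _ _ _ _ _ _ hs
  exact Pool.Agent.Y489.PH.lie_final hn hd hc hs

end Pool.Agent.Results.MP_afaf30_gt.PointwiseLipschitz
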