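import Pool.Agent.Y489.SP.Final

/-!
# The Hilbert-Smith conjecture for homeomorphisms of class `W^{1,q}`, `q > n - 1`

Let `n ≥ 2` and let `X` be a metric space in which the points with a neighbourhood bi-Lipschitz
equivalent to an open subset of `ℝⁿ` form a dense connected set (for example a connected Lipschitz
manifold, or an Alexandrov space of dimension `n`). Every locally compact group which acts faithfully
and continuously on `X`, such that every element near the identity acts by a map of the Sobolev
class `W^{1,q}_loc` with an exponent `q > n - 1`, or more generally by a map `f` for which the sum of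
`diam (f (B))^n` over balls `B` of radius `c r` with `r`-separated centres is `O(r^{-1 + ε})`, is a
Lie group.

Proof (files in `Pool/Agent/Y489/SP/` and the files imported there). By Baire's theorem the maps
of a coset `h K` of an open subgroup are uniformly in the class. The average `F` over
the closure `P` of the powers of an element `g` (of `p`-power type) maps almost every hyperplane to a
null set, so that almost every fibre of `F` is totally disconnected. If `g` has no fixed
point on such a fibre, the fibre is the disjoint union of `p` clopen sets which `g` permutes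
cyclically. The local degrees of `F` at these sets are equal integers with sum one, a
contradiction. So `g` is the identity near the centre. No differentiability
of `F` and no Lusin condition is used. The global part follows project HS of helper485.
-/

namespace Pool.Agent.Results.MP_afaf30_gt.SobolevExponentAboveNMinusOne

open MeasureTheory Set Metric Filter Topology
open scoped ENNReal

/-- A bi-Lipschitz chart with values in Euclidean `n`-space. -/
def BiLip {X : Type} [MetricSpace X] (n : ℕ) (U : Set X) (ψ : X → EuclideanSpace ℝ (Fin n))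
    (L : ℝ) : Prop :=
  IsOpen U ∧ IsOpen (ψ '' U) ∧
    ∀ a ∈ U, ∀ b ∈ U, dist (ψ a) (ψ b) ≤ L * dist a b ∧ dist a b ≤ L * dist (ψ a) (ψ b)

/-- The points with a neighbourhood which is bi-Lipschitz equivalent to an open subset of Euclidean
`n`-space. -/
def Reg (n : ℕ) (X : Type) [MetricSpace X] : Set X :=
  {x | ∃ (U : Set X) (ψ : X → EuclideanSpace ℝ (Fin n)) (L : ℝ), x ∈ U ∧ BiLip n U ψ L}

/-- The Sobolev class `W^{1,q}_loc` on the regular part, in the form of Hajlasz: on every compact
set of regular points there is `g` with `d(fa, fb) ≤ d(a, b) (g(a) + g(b))`, and `g^q` has finite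
integral for the `n`-dimensional Hausdorff measure. -/
def Sobolev (n : ℕ) (q : ℝ) {X : Type} [MetricSpace X] [MeasurableSpace X] [BorelSpace X]
    (f : X → X) : Prop :=
  ∀ C ⊆ Reg n X, IsCompact C → ∃ g : X → ℝ≥0∞, Measurable g ∧
    (∀ a ∈ C, ∀ b ∈ C, edist (f a) (f b) ≤ edist a b * (g a + g b)) ∧
    ∫⁻ a in C, g a ^ q ∂(Measure.hausdorffMeasure (n : ℝ)) < ∞

/-- On every compact set `C` of regular points the sum of `diam (f (B(a, c r) ∩ C))^n` over
`r`-separated points `a` of `C` is at most `N r^{-1 + 1/N}`, for some `N` depending on `C` and `c`. -/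
def SmallImages (n : ℕ) {X : Type} [MetricSpace X] (f : X → X) : Prop :=
  ∀ C ⊆ Reg n X, IsCompact C → ∀ c : ℕ, ∃ N : ℕ, ∀ r : ℝ, 0 < r → r ≤ 1 → ∀ A : Finset X,
    (∀ a ∈ A, a ∈ C) → (∀ a ∈ A, ∀ b ∈ A, a ≠ b → r ≤ dist a b) →
    ∑ a ∈ A, Metric.diam (f '' (closedBall a (c * r) ∩ C)) ^ n ≤ N * r ^ (1 / (N : ℝ) - 1)

/-- The Hilbert-Smith conjecture for homeomorphisms of class `W^{1,q}`, `q > n - 1`. -/
theorem result :
    ∀ (n : ℕ), 2 ≤ n → ∀ (X : Type) [MetricSpace X] [MeasurableSpace X] [BorelSpace X],
      Dense (Reg n X) → IsPreconnected (Reg n X) →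
      ∀ (G : Type) [Group G] [TopologicalSpace G] [IsTopologicalGroup G] [LocallyCompactSpace G]
        [MulAction G X] [ContinuousSMul G X] [FaithfulSMul G X],
        (∀ᶠ g in 𝓝 (1 : G), SmallImages n (fun x : X => g • x) ∨
          ∃ q : ℝ, (n : ℝ) - 1 < q ∧ Sobolev n q (fun x : X => g • x)) →
        ∃ (m : ℕ) (_ : ChartedSpace (EuclideanSpace ℝ (Fin m)) G),
          LieGroup (modelWithCornersSelf ℝ (EuclideanSpace ℝ (Fin m)))
            ((⊤ : ℕ∞) : WithTop ℕ∞) G := by
  intro n hn X _ _ _ hd hc G _ _ _ _ _ _ _ hs
  exact Pool.Agent.Y489.SP.lie_final hn hd hc hs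

end Pool.Agent.Results.MP_afaf30_gt.SobolevExponentAboveNMinusOne
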