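import Pool.Agent.Y485.HS.Final2

/-!
# The Hilbert-Smith conjecture for Sobolev homeomorphisms

Let `n ≥ 2` and let `X` be a metric space in which the points with a neighbourhood bi-Lipschitz
equivalent to an open subset of `ℝⁿ` form a dense connected set. Every locally compact group which
acts faithfully and continuously on `X`, such that the elements near the identity act by maps of
the Sobolev class `W^{1,n}_loc`, is a Lie group.

The proof is in `Pool/Agent/Y485/HS/` (and the files imported there). A map of a ball, close to the
identity and of class `W^{1,n}`, has signed number of preimages one at almost every point (Lipschitz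
truncation and Milnor's polynomial argument). The average `F` of the maps of a small coset of a
pro-`p` group is such a map and is constant on the orbits; the finite orbits in a generic fibre of
`F` have sizes divisible by `p` and constant sign unless they are fixed points. So small pro-`p`
groups act trivially on a ball. Newman's theorem is obtained from the same statement by a change of
coordinates near the boundary of the set of fixed points. General locally compact groups are reduced
to this case by the Gleason-Yamabe theorem, which is in the starting library.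
-/

namespace Pool.Agent.Results.MP_afaf30_gt.SobolevHomeomorphisms

open MeasureTheory Set Metric Filter Topology
open scoped ENNReal

/-- A bi-Lipschitz chart with values in Euclidean `n`-space. -/
def BiLip {X : Type} [MetricSpace X] (n : ℕ) (U : Set X) (ψ : X → EuclideanSpace ℝ (Fin n))
    (L : ℝ) : Prop :=
  IsOpen U ∧ IsOpen (ψ '' U) ∧
    ∀ a ∈ U, ∀ b ∈ U, dist (ψ a) (ψ b) ≤ L * dist a b ∧ dist a b ≤ L * dist (ψ a) (ψ b)

/-- The points with a neighbourhood which is bi-Lipschitz equivalent to an open subset of Euclidean
`n`-space. -/
def Reg (n : ℕ) (X : Type) [MetricSpace X] : Set X :=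
  {x | ∃ (U : Set X) (ψ : X → EuclideanSpace ℝ (Fin n)) (L : ℝ), x ∈ U ∧ BiLip n U ψ L}

/-- The Sobolev class `W^{1,n}_loc` on the regular part, in the form of Hajlasz: on every compact
set of regular points there is `g` with `d(fa, fb) ≤ d(a, b) (g(a) + g(b))`, and `g^n` has finite
integral for the `n`-dimensional Hausdorff measure. -/
def Sob (n : ℕ) {X : Type} [MetricSpace X] [MeasurableSpace X] [BorelSpace X] (f : X → X) :
    Prop :=
  ∀ C ⊆ Reg n X, IsCompact C → ∃ g : X → ℝ≥0∞, Measurable g ∧
    (∀ a ∈ C, ∀ b ∈ C, edist (f a) (f b) ≤ edist a b * (g a + g b)) ∧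
    ∫⁻ a in C, g a ^ n ∂(Measure.hausdorffMeasure (n : ℝ)) < ∞

/-- The Hilbert-Smith conjecture for Sobolev homeomorphisms. -/
theorem result :
    ∀ (n : ℕ), 2 ≤ n → ∀ (X : Type) [MetricSpace X] [MeasurableSpace X] [BorelSpace X],
      Dense (Reg n X) → IsPreconnected (Reg n X) →
      ∀ (G : Type) [Group G] [TopologicalSpace G] [IsTopologicalGroup G] [LocallyCompactSpace G]
        [MulAction G X] [ContinuousSMul G X] [FaithfulSMul G X],
        (∀ᶠ g in 𝓝 (1 : G), Sob n (fun x : X => g • x)) →
        ∃ (m : ℕ) (_ : ChartedSpace (EuclideanSpace ℝ (Fin m)) G),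
          LieGroup (modelWithCornersSelf ℝ (EuclideanSpace ℝ (Fin m)))
            ((⊤ : ℕ∞) : WithTop ℕ∞) G := by
  intro n hn X _ _ _ hd hc G _ _ _ _ _ _ _ hs
  exact Pool.Agent.Y485.HS.lie_final hn hd hc hs

end Pool.Agent.Results.MP_afaf30_gt.SobolevHomeomorphisms
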